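import Pool.Agent.H17.GS.Stm
import Pool.Agent.H77.TF.Pri

/-!
# Project GS, module EQV: Jacobian syzygies and logarithmic fields
-/

set_option autoImplicit false

open MvPolynomial Module

namespace Pool.Agent.H15.GS

open Pool.Agent.H77.TF Pool.Agent.H17.GS

variable {K : Type} [Field K]

section graded

attribute [local instance] MvPolynomial.gradedAlgebra

theorem comp_mul (p r : MvPolynomial (Fin 3) K) (m e : ℕ) (hp : p.IsHomogeneous m) :
    homogeneousComponent (m + e) (p * r) = p * homogeneousComponent e r := by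
  have h := DirectSum.coe_decompose_mul_add_of_left_mem (homogeneousSubmodule (Fin 3) K)
    (i := m) (j := e) (a := p) (b := r) hp
  have h1 : ((DirectSum.decompose (homogeneousSubmodule (Fin 3) K) (p * r)) (m + e) :
      MvPolynomial (Fin 3) K) = homogeneousComponent (m + e) (p * r) :=
    decomposition.decompose'_apply _ _
  have h2 : ((DirectSum.decompose (homogeneousSubmodule (Fin 3) K) r) e :
      MvPolynomial (Fin 3) K) = homogeneousComponent e r :=
    decomposition.decompose'_apply _ _
  rwa [h1, h2] at h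

end graded

/-- the derivation given by a vector field -/
noncomputable def Dv (v : Fin 3 → MvPolynomial (Fin 3) K) (f : MvPolynomial (Fin 3) K) :
    MvPolynomial (Fin 3) K := ∑ j, v j * pderiv j f

theorem Dv_mul (v : Fin 3 → MvPolynomial (Fin 3) K) (f g : MvPolynomial (Fin 3) K) :
    Dv v (f * g) = f * Dv v g + g * Dv v f := by
  unfold Dv
  rw [Finset.mul_sum, Finset.mul_sum, ← Finset.sum_add_distrib]
  refine Finset.sum_congr rfl fun j _ => ?_
  rw [pderiv_mul]
  ring

theorem Dv_lin (v : Fin 3 → MvPolynomial (Fin 3) K) (a : Fin 3 → K) : Dv v (lin a) = evl a v := by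
  classical
  unfold Dv evl
  refine Finset.sum_congr rfl fun j _ => ?_
  have h : pderiv j (lin a) = C (a j) := by
    unfold lin
    rw [map_sum]
    simp only [pderiv_C_mul, pderiv_X]
    rw [Finset.sum_eq_single j]
    · simp [Algebra.smul_def]
    · intro i _ hi
      simp [Pi.single_apply, hi]
    · intro h
      exact absurd (Finset.mem_univ j) h
  rw [h, mul_comm]

theorem Dv_X {f : MvPolynomial (Fin 3) K} {n : ℕ} (hf : f.IsHomogeneous n) :
    Dv (X : Fin 3 → MvPolynomial (Fin 3) K) f = C (n : K) * f := by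
  unfold Dv
  have h := hf.sum_X_mul_pderiv
  rw [h]
  simp [nsmul_eq_mul]

theorem dvd_Dv {ν : Type} {A : ν → Fin 3 → K} {v : Fin 3 → MvPolynomial (Fin 3) K} (hv : v ∈ LD A)
    (s : Finset ν) : ∏ i ∈ s, lin (A i) ∣ Dv v (∏ i ∈ s, lin (A i)) := by
  classical
  induction s using Finset.induction_on with
  | empty =>
    rw [Finset.prod_empty]
    exact one_dvd _
  | insert i s hi ih =>
    rw [Finset.prod_insert hi, Dv_mul, Dv_lin]
    refine dvd_add (mul_dvd_mul_left _ ih) ?_
    rw [mul_comm (lin (A i))]
    exact mul_dvd_mul_left _ (hv i)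

/-- **Module EQV.** -/
theorem eqv : S_EQV := by
  classical
  intro K _ _ n A hA hn e
  obtain ⟨f, hf⟩ : ∃ f, f = ∏ i, lin (A i) := ⟨_, rfl⟩
  have hf0 : f ≠ 0 := by
    rw [hf]
    exact Finset.prod_ne_zero_iff.2 fun i _ => lin_ne_zero (hA.1 i)
  have hlin : ∀ a : Fin 3 → K, (lin a).IsHomogeneous 1 := by
    intro a
    unfold lin
    exact IsHomogeneous.sum _ _ _ fun i _ => isHomogeneous_C_mul_X _ _
  have hfh : f.IsHomogeneous n := by
    have := MvPolynomial.IsHomogeneous.prod (Finset.univ : Finset (Fin n)) (fun i => lin (A i))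
      (fun _ => 1) (fun i _ => hlin (A i))
    rw [hf]
    simpa using this
  have hn0 : (n : K) ≠ 0 := Nat.cast_ne_zero.2 (by omega)
  have hnC : (C (n : K) : MvPolynomial (Fin 3) K) ≠ 0 := by rwa [Ne, C_eq_zero]
  have hsyz : ∀ v, IsSyz A v ↔ Dv v f = 0 := by
    intro v
    unfold IsSyz Dv
    rw [hf]
  constructor
  · rintro ⟨v, hv, hh, hv0⟩
    rw [hsyz] at hv
    refine ⟨v, fun i => ?_, hh, ?_⟩
    · have h1 : f = lin (A i) * ∏ k ∈ Finset.univ.erase i, lin (A k) := by
        rw [hf]
        exact (Finset.mul_prod_erase Finset.univ (fun k => lin (A k)) (Finset.mem_univ i)).symm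
      rw [h1, Dv_mul, Dv_lin] at hv
      have h2 : lin (A i) ∣ (∏ k ∈ Finset.univ.erase i, lin (A k)) * evl (A i) v := by
        have h3 : (∏ k ∈ Finset.univ.erase i, lin (A k)) * evl (A i) v =
            - (lin (A i) * Dv v (∏ k ∈ Finset.univ.erase i, lin (A k))) :=
          eq_neg_of_add_eq_zero_right hv
        rw [h3]
        exact (dvd_mul_right _ _).neg_right
      have hpr := pri K 3 (A i) (hA.1 i)
      rcases hpr.1.dvd_or_dvd h2 with h3 | h3
      · exfalso
        obtain ⟨k, hk, h4⟩ := (hpr.1.dvd_finsetProd_iff _).1 h3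
        obtain ⟨c, hc⟩ := hpr.2 _ h4
        exact hA.2 k i (Finset.ne_of_mem_erase hk) c hc
      · exact h3
    · by_contra hcon
      push Not at hcon
      apply hv0
      funext i
      have h1 : X i * Dv v f = v i * (C (n : K) * f) := by
        rw [← Dv_X hfh]
        unfold Dv
        rw [Finset.mul_sum, Finset.mul_sum]
        refine Finset.sum_congr rfl fun j _ => ?_
        rw [← mul_assoc, hcon i j]
        ring
      rw [hv, mul_zero] at h1
      have h2 := h1.symm
      exact (mul_eq_zero.1 h2).resolve_right (mul_ne_zero hnC hf0)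
  · rintro ⟨v, hv, hh, i, j, hij⟩
    have hdvd : f ∣ Dv v f := by
      rw [hf]
      exact dvd_Dv hv _
    obtain ⟨g, hg⟩ := hdvd
    -- a homogeneous factor
    obtain ⟨g', hg', hgh⟩ : ∃ g', Dv v f = f * g' ∧ ∀ k, (g' * X k).IsHomogeneous e := by
      have hDh : (Dv v f).IsHomogeneous (e + (n - 1)) := by
        unfold Dv
        exact IsHomogeneous.sum _ _ _ fun k _ => (hh k).mul hfh.pderiv
      rcases Nat.eq_zero_or_pos e with h0 | hpos
      · refine ⟨0, ?_, fun k => by rw [zero_mul]; exact isHomogeneous_zero _ _ _⟩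
        rw [mul_zero]
        by_contra hne
        have h1 := hDh.totalDegree hne
        have hg0 : g ≠ 0 := by
          rintro rfl
          rw [mul_zero] at hg
          exact hne hg
        rw [hg, totalDegree_mul_of_isDomain hf0 hg0, hfh.totalDegree hf0] at h1
        omega
      · obtain ⟨d, rfl⟩ : ∃ d, e = d + 1 := ⟨e - 1, by omega⟩
        refine ⟨homogeneousComponent d g, ?_, fun k =>
          (homogeneousComponent_isHomogeneous d g).mul (isHomogeneous_X K k)⟩
        rw [← comp_mul _ _ _ _ hfh, ← hg]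
        have h2 : n + d = d + 1 + (n - 1) := by omega
        rw [h2]
        exact (homogeneousComponent_eq_self hDh).symm
    refine ⟨fun k => v k - C ((n : K)⁻¹) * (g' * X k), ?_, ?_, ?_⟩
    · rw [hsyz]
      have h1 : Dv (fun k => v k - C ((n : K)⁻¹) * (g' * X k)) f =
          Dv v f - C ((n : K)⁻¹) * g' * Dv X f := by
        unfold Dv
        rw [Finset.mul_sum, ← Finset.sum_sub_distrib]
        refine Finset.sum_congr rfl fun k _ => ?_
        ring
      have h3 : (C ((n : K)⁻¹) : MvPolynomial (Fin 3) K) * C (n : K) = 1 := by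
        rw [← C_mul, inv_mul_cancel₀ hn0, C_1]
      rw [h1, Dv_X hfh, hg']
      linear_combination (-(f * g')) * h3
    · intro k
      have h1 := (isHomogeneous_C (Fin 3) ((n : K)⁻¹)).mul (hgh k)
      rw [zero_add] at h1
      exact (hh k).sub h1
    · intro h0
      apply hij
      have h1 : ∀ k, v k = C ((n : K)⁻¹) * (g' * X k) := fun k => sub_eq_zero.1 (congrFun h0 k)
      rw [h1 i, h1 j]
      ring

end Pool.Agent.H15.GS
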